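import Pool.Agent.helper68.BD2.Spec
import Pool.Agent.helper66.BEY.CLI

/-!
# Project BD2 (MP_4467b5_nt), row CLJ (helper89): class one
-/

set_option autoImplicit false

namespace Pool.Agent.BEY

open Pool.Agent.helper84.DM Pool.Agent.helper78.ED Pool.Agent.DH Pool.Agent.LDH

/-- the mean square of the short polynomial -/
theorem CLJ_G (T κ : ℝ) (N : ℕ) (a : ℕ → ℂ) (hT : 0 < T) (ha : ∀ n ∈ Finset.Ioc N (2 * N), ‖a n‖ ≤ T ^ κ) :
    ∑ n ∈ Finset.Ioc N (2 * N), ‖a n‖ ^ 2 ≤ N * T ^ (2 * κ) := by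
  have h1 : ∀ n ∈ Finset.Ioc N (2 * N), ‖a n‖ ^ 2 ≤ T ^ (2 * κ) := by
    intro n hn
    calc ‖a n‖ ^ 2 ≤ (T ^ κ) ^ 2 := pow_le_pow_left₀ (norm_nonneg _) (ha n hn) 2
      _ = T ^ (2 * κ) := by
          rw [← Real.rpow_natCast, ← Real.rpow_mul hT.le]
          congr 1
          push_cast
          ring
  calc ∑ n ∈ Finset.Ioc N (2 * N), ‖a n‖ ^ 2 ≤ ∑ _n ∈ Finset.Ioc N (2 * N), T ^ (2 * κ) := Finset.sum_le_sum h1
    _ = N * T ^ (2 * κ) := by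
        rw [Finset.sum_const, Nat.card_Ioc, nsmul_eq_mul]
        have h7 : 2 * N - N = N := by omega
        rw [h7]

/-- the lower bound of the size of the short polynomial -/
theorem CLJ_V (T κ x σ : ℝ) (N : ℕ) (hT : 1 ≤ T) (hN : 1 ≤ N) (hx : 4 * κ ≤ x) :
    (N : ℝ) ^ (2 * σ) * T ^ (-x) ≤ ((N : ℝ) ^ σ * T ^ (-(2 * κ))) ^ 2 := by
  have hT0 : 0 < T := by linarith
  have hN0 : (0 : ℝ) < N := by exact_mod_cast hN
  have e1 : ((N : ℝ) ^ σ * T ^ (-(2 * κ))) ^ 2 = (N : ℝ) ^ (2 * σ) * T ^ (-(4 * κ)) := by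
    rw [mul_pow, ← Real.rpow_natCast, ← Real.rpow_natCast, ← Real.rpow_mul hN0.le, ← Real.rpow_mul hT0.le]
    congr 1
    · congr 1
      push_cast
      ring
    · congr 1
      push_cast
      ring
  rw [e1]
  exact mul_le_mul_of_nonneg_left (Real.rpow_le_rpow_of_exponent_le hT (by linarith)) (by positivity)

/-- `K2` for a finite set of real numbers -/
theorem CLJ_K2 (T : ℝ) (W : Finset ℝ) (B : ℝ) (Pr : ℝ → Prop)
    (hW : ∀ t ∈ W, T ≤ t ∧ t ≤ 2 * T) (hsep : ∀ s ∈ W, ∀ t ∈ W, s ≠ t → 1 ≤ |s - t|) (hP : ∀ t ∈ W, Pr t)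
    (h : ∀ Z : Finset ℂ, (∀ ρ ∈ Z, ∀ ρ' ∈ Z, |ρ.im - ρ'.im| ≤ T) →
      (∀ ρ ∈ Z, ∀ ρ' ∈ Z, ρ ≠ ρ' → 1 ≤ |ρ.im - ρ'.im|) → (∀ ρ ∈ Z, Pr ρ.im) → (Z.card : ℝ) ≤ B) :
    (W.card : ℝ) ≤ B := by
  have him : ∀ t : ℝ, ((t : ℂ) * Complex.I).im = t := fun t => by simp
  have hinj : Function.Injective (fun t : ℝ => (t : ℂ) * Complex.I) := by
    intro t s h
    have h1 := congrArg Complex.im h
    simpa using h1
  have hcard : (W.image (fun t : ℝ => (t : ℂ) * Complex.I)).card = W.card := Finset.card_image_of_injective W hinj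
  rw [← hcard]
  refine h _ ?_ ?_ ?_
  · intro ρ hρ ρ' hρ'
    rw [Finset.mem_image] at hρ hρ'
    obtain ⟨t, ht, rfl⟩ := hρ
    obtain ⟨s, hs, rfl⟩ := hρ'
    rw [him, him, abs_le]
    have h1 := hW t ht
    have h2 := hW s hs
    constructor <;> linarith
  · intro ρ hρ ρ' hρ' hne
    rw [Finset.mem_image] at hρ hρ'
    obtain ⟨t, ht, rfl⟩ := hρ
    obtain ⟨s, hs, rfl⟩ := hρ'
    rw [him, him]
    exact hsep t ht s hs (fun h => hne (by rw [h]))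
  · intro ρ hρ
    rw [Finset.mem_image] at hρ
    obtain ⟨t, ht, rfl⟩ := hρ
    rw [him]
    exact hP t ht

theorem CLJ (hK2 : K2_stmt) (hCPC : CPC_stmt) (hPWB : PWB_stmt) (hNUE : NUE_stmt) : CLJ_stmt := by
  intro s₀ ε hs₀ hε
  rcases lt_or_ge 1 s₀ with hs1 | hs1
  · refine ⟨1, one_pos, fun δ _ _ => ⟨1, 1, 1, one_pos, le_rfl, one_pos, ?_⟩⟩
    intro T σ A _ h1 h2
    exact absurd (h1.trans h2) (not_le.2 hs1)
  refine ⟨min (ε / 32) (1 / 16), lt_min (by linarith) (by norm_num), ?_⟩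
  intro δ hδ hδ₀
  have hδ1 : δ ≤ ε / 32 := hδ₀.trans (min_le_left _ _)
  have hδ3 : δ ≤ 1 / 16 := hδ₀.trans (min_le_right _ _)
  obtain ⟨κ, ε', hκ, hκ1, hε', hnum⟩ := hNUE s₀ (ε / 2) δ hs₀ hs1 (by linarith) hδ (by linarith) hδ3
  obtain ⟨CL, TL, hCL, hlv⟩ := hK2 ε' hε'
  obtain ⟨Cd₀, hCd₀, hdiv₀⟩ := divisor_bound (κ / 3) (by positivity)
  obtain ⟨Cd, hCd, hdiv⟩ : ∃ Cd : ℝ, 1 ≤ Cd ∧ ∀ n : ℕ, 1 ≤ n → d n ≤ Cd * (n : ℝ) ^ (κ / 3) := by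
    refine ⟨max Cd₀ 1, le_max_right _ _, fun n hn => (hdiv₀ n hn).trans ?_⟩
    exact mul_le_mul_of_nonneg_right (le_max_left _ _) (by positivity)
  obtain ⟨K, hK⟩ : ∃ K : ℕ, K = ⌊4 / δ⌋₊ := ⟨_, rfl⟩
  have hCd2 : (1 : ℝ) ≤ Cd ^ (2 * K) := one_le_pow₀ hCd
  have hK4 : (0 : ℝ) ≤ 4 ^ K * (K : ℝ) ^ 2 := by positivity
  obtain ⟨C₂, hC₂e⟩ : ∃ C₂ : ℝ, C₂ = Cd ^ (2 * K) + 4 ^ K * (K : ℝ) ^ 2 := ⟨_, rfl⟩
  have hC₂1 : (1 : ℝ) ≤ C₂ := by rw [hC₂e]; linarith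
  have hC₂ : (0 : ℝ) < C₂ := by linarith
  obtain ⟨CN, T₁, hCN, hnum'⟩ := hnum CL C₂ hCL hC₂
  obtain ⟨T₂, hcp⟩ := hCPC δ hδ hδ3
  refine ⟨κ, (K + 1) * CN, max (max T₁ T₂) (max (max 2 TL) ((2 ^ K : ℝ) ^ (1 / δ))), hκ, hκ1, by positivity, ?_⟩
  intro T σ A hT hσ hσ1 hA N a W hN hN2 ha hW hsep hlarge
  have hT1 : T₁ ≤ T := (le_max_left _ _).trans ((le_max_left _ _).trans hT)
  have hT2 : T₂ ≤ T := (le_max_right _ _).trans ((le_max_left _ _).trans hT)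
  have hT3 : 2 ≤ T := (le_max_left _ _).trans ((le_max_left _ _).trans ((le_max_right _ _).trans hT))
  have hTL : TL ≤ T := (le_max_right _ _).trans ((le_max_left _ _).trans ((le_max_right _ _).trans hT))
  have hT4 : (2 ^ K : ℝ) ^ (1 / δ) ≤ T := (le_max_right _ _).trans ((le_max_right _ _).trans hT)
  have hT0 : 0 < T := by linarith
  have hT5 : 1 ≤ T := by linarith
  have h2K : (2 : ℝ) ^ K ≤ T ^ δ := by
    calc (2 : ℝ) ^ K = ((2 ^ K : ℝ) ^ (1 / δ)) ^ δ := by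
          rw [← Real.rpow_mul (by positivity), one_div, inv_mul_cancel₀ hδ.ne', Real.rpow_one]
      _ ≤ T ^ δ := Real.rpow_le_rpow (by positivity) hT4 hδ.le
  have hσ0 : 3 / 4 < σ := by linarith
  have hNpos : (0 : ℝ) < N := by
    have : (0 : ℝ) < T ^ δ / 2 := by positivity
    linarith
  have hN1 : 1 ≤ N := by
    have : 0 < N := by exact_mod_cast hNpos
    omega
  have hN1' : (1 : ℝ) ≤ N := by exact_mod_cast hN1
  obtain ⟨k, hk1', hk2, hk3, hk4, hk5⟩ := hcp T A hT2 hA.1 hA.2.1 N hN hN2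
  have hk1 : 1 ≤ k := by omega
  have hkK : k ≤ K := by
    rw [hK]
    exact Nat.le_floor hk2
  have hk0 : (0 : ℝ) < k := by exact_mod_cast hk1
  obtain ⟨x, hx⟩ : ∃ x : ℝ, x = 16 * κ / δ := ⟨_, rfl⟩
  have hkx : 4 * κ * k ≤ x := by
    rw [hx]
    calc 4 * κ * k ≤ 4 * κ * (4 / δ) := mul_le_mul_of_nonneg_left hk2 (by positivity)
      _ = 16 * κ / δ := by ring
  have hx4 : 4 * κ ≤ x := by
    refine le_trans ?_ hkx
    have h1 : (1 : ℝ) ≤ k := by exact_mod_cast hk1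
    nlinarith
  obtain ⟨V, hV⟩ : ∃ V : ℝ, V = (N : ℝ) ^ σ * T ^ (-(2 * κ)) := ⟨_, rfl⟩
  have hVpos : 0 < V := by
    rw [hV]
    positivity
  obtain ⟨b, hb, hbt⟩ := hPWB N a (T ^ κ) V k hN1 (by positivity) hVpos.le hk1 ha
  have hV1 : 0 < V ^ k / k := by positivity
  -- the short polynomial
  obtain ⟨G, hG⟩ : ∃ G : ℝ, G = ∑ n ∈ Finset.Ioc N (2 * N), ‖a n‖ ^ 2 := ⟨_, rfl⟩
  have hG0 : 0 ≤ G := by
    rw [hG]
    positivity
  have hG1 : G ≤ C₂ * ((N : ℝ) * T ^ x) := by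
    rw [hG]
    refine (CLJ_G T κ N a hT0 ha).trans ?_
    have h1 : (N : ℝ) * T ^ (2 * κ) ≤ N * T ^ x :=
      mul_le_mul_of_nonneg_left (Real.rpow_le_rpow_of_exponent_le hT5 (by linarith)) (by positivity)
    have h2 : (0 : ℝ) ≤ (N : ℝ) * T ^ x := by positivity
    nlinarith
  have hV2 : (N : ℝ) ^ (2 * σ) * T ^ (-x) ≤ C₂ * V ^ 2 := by
    rw [hV]
    refine (CLJ_V T κ x σ N hT5 hN1 hx4).trans ?_
    have h2 : (0 : ℝ) ≤ ((N : ℝ) ^ σ * T ^ (-(2 * κ))) ^ 2 := by positivity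
    nlinarith
  -- the count in one block
  have hblock : ∀ i ∈ Finset.range k, (((W.filter (fun t => V ^ k / k ≤
      ‖DP (2 ^ i * N ^ k) b t‖)).card : ℕ) : ℝ) ≤
      CN * T ^ (ε / 2) * T ^ (A * (1 - σ)) := by
    intro i hi
    rw [Finset.mem_range] at hi
    obtain ⟨M, hM⟩ : ∃ M : ℕ, M = 2 ^ i * N ^ k := ⟨_, rfl⟩
    have hMr : (M : ℝ) = 2 ^ i * (N : ℝ) ^ k := by
      rw [hM]
      push_cast
      ring
    have hNk0 : (0 : ℝ) < (N : ℝ) ^ k := by positivity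
    have h2i : (1 : ℝ) ≤ 2 ^ i := one_le_pow₀ (by norm_num)
    have hNkM : (N : ℝ) ^ k ≤ M := by
      rw [hMr]
      nlinarith
    have hM1 : T ^ (A / 3) ≤ (M : ℝ) := hk3.trans hNkM
    have hM2 : (M : ℝ) ≤ T ^ (A / 2 + 4 * δ) := by
      have h1 : (2 : ℝ) ^ i ≤ 2 ^ K := pow_le_pow_right₀ (by norm_num) (by omega)
      calc (M : ℝ) = 2 ^ i * (N : ℝ) ^ k := hMr
        _ ≤ T ^ δ * T ^ (A / 2 + 3 * δ) :=
            mul_le_mul (h1.trans h2K) hk4 (by positivity) (by positivity)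
        _ = T ^ (A / 2 + 4 * δ) := by
            rw [← Real.rpow_add hT0]
            congr 1
            ring
    have hM3 : 1 ≤ M := by
      rw [hM]
      have : 0 < 2 ^ i * N ^ k := by positivity
      omega
    have hNM : (N : ℝ) ^ 2 ≤ M := (pow_le_pow_right₀ hN1' hk1').trans hNkM
    have hNM2 : T ^ (A / 2) ≤ (N : ℝ) * M := by
      refine hk5.trans ?_
      calc (N : ℝ) ^ (k + 1) = N * (N : ℝ) ^ k := by ring
        _ ≤ N * M := mul_le_mul_of_nonneg_left hNkM hNpos.le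
    have h2M : 2 * (M : ℝ) ≤ T ^ (3 : ℝ) := by
      have h3 : A / 2 + 4 * δ ≤ 2 := by
        have := hA.2.1
        linarith
      calc 2 * (M : ℝ) ≤ T * T ^ (2 : ℝ) := by
            apply mul_le_mul hT3 _ (by positivity) (by positivity)
            exact hM2.trans (Real.rpow_le_rpow_of_exponent_le hT5 h3)
        _ = T ^ (3 : ℝ) := by
            nth_rewrite 1 [← Real.rpow_one T]
            rw [← Real.rpow_add hT0]
            norm_num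
    obtain ⟨H, hH⟩ : ∃ H : ℝ, H = ∑ n ∈ Finset.Ioc M (2 * M), ‖b n‖ ^ 2 := ⟨_, rfl⟩
    have hH0 : 0 ≤ H := by
      rw [hH]
      positivity
    have hMT : 0 ≤ (M : ℝ) * T ^ x := by positivity
    have hH1 : H ≤ C₂ * ((M : ℝ) * T ^ x) := by
      rw [hH, hC₂e]
      refine (CLI_G T κ x Cd k K M b hT5 hκ hCd hkK hkx h2M hdiv hb).trans ?_
      apply mul_le_mul_of_nonneg_right _ hMT
      linarith
    have hU2 : (M : ℝ) ^ (2 * σ) * T ^ (-x) ≤ C₂ * (V ^ k / k) ^ 2 := by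
      rw [hM, hV, hC₂e]
      refine (CLI_V T κ x σ N k K i hT5 hN1 hk1 hkK hi (by linarith) hσ1 hkx).trans ?_
      apply mul_le_mul_of_nonneg_right _ (by positivity)
      linarith
    rw [hx] at hH1 hU2
    have hG1' := hG1
    have hV2' := hV2
    rw [hx] at hG1' hV2'
    obtain ⟨hNT, hMT2, hcond, L, hL1, hL2, hfin⟩ := hnum' T σ A N M G V H (V ^ k / k) hT1 hσ hσ1 hA hN hN2 hM1 hM2 hNM hNM2
      hG0 hG1' hVpos hV2' hH0 hH1 hV1 hU2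
    rw [← hM]
    refine CLJ_K2 T (W.filter (fun t => V ^ k / k ≤ ‖DP M b t‖)) _
      (fun t => V ≤ ‖DP N a t‖ ∧ V ^ k / k ≤ ‖DP M b t‖) ?_ ?_ ?_ ?_
    · intro t ht
      exact hW t (Finset.mem_filter.1 ht).1
    · intro s hs t ht hst
      exact hsep s (Finset.mem_filter.1 hs).1 t (Finset.mem_filter.1 ht).1 hst
    · intro t ht
      refine ⟨?_, (Finset.mem_filter.1 ht).2⟩
      rw [hV]
      exact hlarge t (Finset.mem_filter.1 ht).1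
    · intro Z hZ1 hZ2 hZ3
      refine (hlv T hTL Z hZ1 hZ2 N M hN1 hM3 hNT hMT2 a b V G (V ^ k / k) H hVpos hV1 hG.ge hH.ge
        (fun ρ hρ => (hZ3 ρ hρ).1) (fun ρ hρ => (hZ3 ρ hρ).2) hcond L hL1 hL2).trans hfin
  -- the sum over the blocks
  have hcover : W ⊆ (Finset.range k).biUnion (fun i => W.filter (fun t => V ^ k / k ≤
      ‖DP (2 ^ i * N ^ k) b t‖)) := by
    intro t ht
    obtain ⟨i, hi, hi2⟩ := hbt t (hV ▸ hlarge t ht)
    rw [Finset.mem_biUnion]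
    exact ⟨i, hi, Finset.mem_filter.2 ⟨ht, hi2⟩⟩
  have hcard : (W.card : ℝ) ≤ ∑ i ∈ Finset.range k, (((W.filter (fun t => V ^ k / k ≤
      ‖DP (2 ^ i * N ^ k) b t‖)).card : ℕ) : ℝ) := by
    have h7 := (Finset.card_le_card hcover).trans Finset.card_biUnion_le
    exact_mod_cast h7
  have hRHS : 0 ≤ CN * T ^ (ε / 2) * T ^ (A * (1 - σ)) := by positivity
  have hTε : T ^ (ε / 2) ≤ T ^ ε := Real.rpow_le_rpow_of_exponent_le hT5 (by linarith)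
  have hkK' : (k : ℝ) ≤ K + 1 := by
    have : (k : ℝ) ≤ K := by exact_mod_cast hkK
    linarith
  calc (W.card : ℝ) ≤ ∑ i ∈ Finset.range k, (((W.filter (fun t => V ^ k / k ≤
      ‖DP (2 ^ i * N ^ k) b t‖)).card : ℕ) : ℝ) := hcard
    _ ≤ ∑ _i ∈ Finset.range k, CN * T ^ (ε / 2) * T ^ (A * (1 - σ)) :=
        Finset.sum_le_sum hblock
    _ = k * (CN * T ^ (ε / 2) * T ^ (A * (1 - σ))) := by
        rw [Finset.sum_const, Finset.card_range, nsmul_eq_mul]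
    _ ≤ (K + 1) * (CN * T ^ (ε / 2) * T ^ (A * (1 - σ))) :=
        mul_le_mul_of_nonneg_right hkK' hRHS
    _ = (K + 1) * CN * (T ^ (ε / 2) * T ^ (A * (1 - σ))) := by ring
    _ ≤ (K + 1) * CN * (T ^ ε * T ^ (A * (1 - σ))) := by
        apply mul_le_mul_of_nonneg_left _ (by positivity)
        exact mul_le_mul_of_nonneg_right hTε (by positivity)
    _ = (K + 1) * CN * T ^ ε * T ^ (A * (1 - σ)) := by ring

end Pool.Agent.BEY
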